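import Mathlib
import Pool.Agent.BoltzD.Stmt3

/-! The notions of the problem (those of the folder `BoltzD`) and the kernel with
`γ = 199 / 100`, `s = 1 / 200`. -/

set_option autoImplicit false

noncomputable section

namespace Pool.Agent.BoltzM.Stmt

export Pool.Agent.BoltzD.Stmt (Rd Sph lat vPost wPost cosTh collInt collMeas Q NonCutoff mass energy
  entropy Admissible ClassicalSol Implosion Unique)

/-- the kernel used in the proof: `B(r, cos θ) = 2^(3-d) r^(199/100) |sin(θ/2)|^(99/100-d)` -/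
def Bk (d : ℕ) (r c : ℝ) : ℝ :=
  8 / 2 ^ d * r ^ (199 / 100 : ℝ) * ((1 - c) / 2) ^ (99 / 200 - d / 2 : ℝ)

/-- the statement in dimension `d` -/
def MainM (d : ℕ) : Prop :=
  ∃ (γ s : ℝ) (B : ℝ → ℝ → ℝ), 0 < s ∧ s < 1 ∧ 0 ≤ γ + 2 * s ∧ γ + 2 * s ≤ 2 ∧ NonCutoff d γ s B ∧
    ∃ (T : ℝ) (f : ℝ → Rd d → Rd d → ℝ) (x₀ : Rd d), 0 < T ∧ Admissible (f 0) ∧
      ClassicalSol B T f ∧ Unique B T f ∧ Implosion T f x₀

end Pool.Agent.BoltzM.Stmt
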