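import Mathlib

/-! The dimension `dd ≥ 2` of the position and velocity spaces, as a class. -/

set_option autoImplicit false

namespace Pool.Agent.BoltzM

/-- The dimension. -/
class Dim where
  dd : ℕ
  two_le : 2 ≤ dd

export Dim (dd)

variable [Dim]

/-- Coordinate indices. -/
abbrev Ix : Type := Fin dd

/-- Indices of the collision invariants: `none` mass, `some none` energy, `some (some i)` momentum. -/
abbrev Hx : Type := Option (Option Ix)

lemma two_le_dd : 2 ≤ dd := Dim.two_le

instance : NeZero dd := ⟨by have := two_le_dd; omega⟩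

instance : Nontrivial Ix := Fin.nontrivial_iff_two_le.2 two_le_dd

lemma two_le_dr : (2 : ℝ) ≤ dd := by exact_mod_cast two_le_dd

lemma dr_pos : (0 : ℝ) < dd := by linarith [two_le_dr]

lemma dr_ne : (dd : ℝ) ≠ 0 := dr_pos.ne'

lemma card_Ix : Fintype.card Ix = dd := Fintype.card_fin _

lemma card_Hx : Fintype.card Hx = dd + 2 := by simp

lemma sum_const_Ix (c : ℝ) : ∑ _i : Ix, c = dd * c := by simp

lemma sum_le_Ix {f : Ix → ℝ} {c : ℝ} (h : ∀ i, f i ≤ c) : ∑ i, f i ≤ dd * c :=
  (Finset.sum_le_sum fun i _ => h i).trans (sum_const_Ix c).le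

lemma sum_Hx {M : Type*} [AddCommMonoid M] (f : Hx → M) :
    ∑ a, f a = f none + (f (some none) + ∑ i, f (some (some i))) := by
  simp only [Fintype.sum_option]

lemma finrank_Ix : Module.finrank ℝ (EuclideanSpace ℝ Ix) = dd := by simp

/-- The constant in the repulsivity condition. -/
noncomputable def cs : ℝ := √(dd + 2)

lemma cs_pos : 0 < cs := Real.sqrt_pos.2 (by linarith [dr_pos])

lemma cs_sq : cs ^ 2 = dd + 2 := Real.sq_sqrt (by linarith [dr_pos])

/-- The decay order in the statements about the collision operator. -/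
def pN : ℕ := 2 * dd + 40

lemma pN_eq : pN = 2 * dd + 40 := rfl

lemma pN_cast : (pN : ℝ) = 2 * dd + 40 := by simp [pN]

end Pool.Agent.BoltzM
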